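import Mathlib
import Pool.Agent.Lib.MP_a849c1_nt_h19.K15

/-!
# MP_a849c1_nt: no Diophantine graph contains `K_{15,15}`

`D V` is the graph on the finite set `V` of positive integers in which distinct `a`, `b` are
adjacent exactly when `a b + 1` is a perfect square.  Subgraphs are not necessarily induced:
`H.IsContained G` is Mathlib's notion, an injective map from the vertices of `H` to the vertices
of `G` which maps edges to edges.
-/

set_option autoImplicit false

namespace Pool.Agent.Results.MP_a849c1_nt.NoK15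

/-- `D(V)`: the vertices are the elements of `V`, and distinct `a`, `b` are adjacent exactly when
`a b + 1` is a perfect square. -/
def D (V : Finset ℕ) : SimpleGraph {a : ℕ // a ∈ V} where
  Adj a b := a ≠ b ∧ ∃ s : ℕ, (a : ℕ) * (b : ℕ) + 1 = s ^ 2
  symm := ⟨by
    rintro a b ⟨hab, s, hs⟩
    exact ⟨hab.symm, s, by rw [mul_comm]; exact hs⟩⟩
  loopless := ⟨fun _ h => h.1 rfl⟩

/-- `G` is Diophantine: it is isomorphic to `D(V)` for some finite set `V` of positive integers. -/
def IsDiophantine {W : Type} (G : SimpleGraph W) : Prop :=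
  ∃ V : Finset ℕ, (∀ a ∈ V, 0 < a) ∧ Nonempty (G ≃g D V)

/-- Any two sets `A`, `B` of positive integers, each with at least `15` elements, disjoint or
not, finite or infinite, contain `a ∈ A`, `b ∈ B` for which `a b + 1` is not a square. -/
theorem numbers (A B : Set ℕ) (hA : 15 ≤ A.encard) (hB : 15 ≤ B.encard) (hA0 : ∀ a ∈ A, 0 < a)
    (hB0 : ∀ b ∈ B, 0 < b) : ∃ a ∈ A, ∃ b ∈ B, ∀ s : ℕ, a * b + 1 ≠ s ^ 2 := by
  by_contra hcon
  push Not at hcon
  obtain ⟨A', hA', hcA⟩ := Set.exists_subset_encard_eq hA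
  obtain ⟨B', hB', hcB⟩ := Set.exists_subset_encard_eq hB
  have hfA : A'.Finite := Set.finite_of_encard_eq_coe (k := 15) (by rw [hcA]; rfl)
  have hfB : B'.Finite := Set.finite_of_encard_eq_coe (k := 15) (by rw [hcB]; rfl)
  have hcA' : hfA.toFinset.card = 15 := by
    rw [hfA.encard_eq_coe_toFinset_card] at hcA
    exact_mod_cast hcA
  have hcB' : hfB.toFinset.card = 15 := by
    rw [hfB.encard_eq_coe_toFinset_card] at hcB
    exact_mod_cast hcB
  refine Pool.Agent.Lib.MP_a849c1_nt_h19.no_K15 hfA.toFinset hfB.toFinset hcA' hcB'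
    (fun a ha => hA0 a (hA' (hfA.mem_toFinset.1 ha)))
    (fun b hb => hB0 b (hB' (hfB.mem_toFinset.1 hb))) fun a ha b hb => ?_
  obtain ⟨s, hs⟩ := hcon a (hA' (hfA.mem_toFinset.1 ha)) b (hB' (hfB.mem_toFinset.1 hb))
  exact ⟨s, by rw [hs]; ring⟩

/-- **No Diophantine graph contains `K_{t,t}` if `t ≥ 15`.**  In terms of numbers: any two sets of
positive integers, each with at least `15` elements, disjoint or not, finite or infinite, contain
`a` (in the first set) and `b` (in the second set) for which `a b + 1` is not a perfect square. -/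
theorem result :
    (∀ t : ℕ, 15 ≤ t → ∀ (W : Type) (G : SimpleGraph W), IsDiophantine G →
      ¬ (completeBipartiteGraph (Fin t) (Fin t)).IsContained G) ∧
    ∀ A B : Set ℕ, 15 ≤ A.encard → 15 ≤ B.encard → (∀ a ∈ A, 0 < a) → (∀ b ∈ B, 0 < b) →
      ∃ a ∈ A, ∃ b ∈ B, ∀ s : ℕ, a * b + 1 ≠ s ^ 2 := by
  refine ⟨?_, numbers⟩
  rintro t ht W G ⟨V, hV, ⟨e⟩⟩ ⟨c⟩
  -- the numbers on the two sides
  let a : Fin t → ℕ := fun i => (e (c (Sum.inl i)) : ℕ)
  let b : Fin t → ℕ := fun i => (e (c (Sum.inr i)) : ℕ)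
  have ha : Function.Injective a := by
    intro i j hij
    have h1 : e (c (Sum.inl i)) = e (c (Sum.inl j)) := Subtype.ext hij
    exact Sum.inl_injective (c.injective (e.injective h1))
  have hb : Function.Injective b := by
    intro i j hij
    have h1 : e (c (Sum.inr i)) = e (c (Sum.inr j)) := Subtype.ext hij
    exact Sum.inr_injective (c.injective (e.injective h1))
  have hcard : ∀ f : Fin t → ℕ, Function.Injective f → 15 ≤ (Set.range f).encard := by
    intro f hf
    rw [← Set.image_univ, hf.encard_image, Set.encard_univ, ENat.card_eq_coe_fintype_card,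
      Fintype.card_fin]
    exact_mod_cast ht
  obtain ⟨x, ⟨i, rfl⟩, y, ⟨j, rfl⟩, hxy⟩ := numbers (Set.range a) (Set.range b) (hcard a ha)
    (hcard b hb) (by rintro x ⟨i, rfl⟩; exact hV _ (e (c (Sum.inl i))).2)
    (by rintro x ⟨i, rfl⟩; exact hV _ (e (c (Sum.inr i))).2)
  have hadj : (completeBipartiteGraph (Fin t) (Fin t)).Adj (Sum.inl i) (Sum.inr j) := by
    simp [completeBipartiteGraph]
  have h2 : (D V).Adj (e (c (Sum.inl i))) (e (c (Sum.inr j))) :=
    e.map_rel_iff.2 (c.toHom.map_rel hadj)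
  obtain ⟨-, s, hs⟩ := h2
  exact hxy s hs

end Pool.Agent.Results.MP_a849c1_nt.NoK15
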